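import Mathlib
import Pool.Agent.W926.PS.Stm

/-!
Weighted lexicographic orders.
-/

set_option autoImplicit false
set_option maxHeartbeats 400000

namespace Pool.Agent.W978.PS

open W926.PS

open Classical in
/-- rank of an injective function -/
noncomputable def rk {X L : Type} [Fintype X] [LinearOrder L] (v : X → L) (x : X) : ℕ :=
  (Finset.univ.filter fun y => v y < v x).card

lemma rk_lt {X L : Type} [Fintype X] [LinearOrder L] (v : X → L) {x y : X} (h : v x < v y) :
    rk v x < rk v y := by
  classical
  unfold rk
  apply Finset.card_lt_card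
  rw [Finset.ssubset_iff_of_subset]
  · exact ⟨x, by simpa using h, by simp⟩
  · intro z hz
    simp only [Finset.mem_filter, Finset.mem_univ, true_and] at hz ⊢
    exact hz.trans h

lemma rk_inj {X L : Type} [Fintype X] [LinearOrder L] (v : X → L) (hv : Function.Injective v) :
    Function.Injective (rk v) := by
  intro x y h
  rcases lt_trichotomy (v x) (v y) with h1 | h1 | h1
  · exact absurd h (rk_lt v h1).ne
  · exact hv h1
  · exact absurd h (rk_lt v h1).ne'

theorem wt : S_WT := by
  intro r a W
  let code : (Fin a → Bool) ≃ Fin (Fintype.card (Fin a → Bool)) := Fintype.equivFin _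
  set N := Fintype.card (Fin a → Bool) with hN
  let u : Om r a → Fin r → ℕ := fun x j => N * (W (j, x j) : ℕ) + (code (x j) : ℕ)
  have hlt : ∀ (x y : Om r a) (j : Fin r), W (j, x j) < W (j, y j) → u x j < u y j := by
    intro x y j h
    have h1 : (W (j, x j) : ℕ) + 1 ≤ (W (j, y j) : ℕ) := h
    have h2 := (code (x j)).2
    show N * (W (j, x j) : ℕ) + (code (x j) : ℕ) < N * (W (j, y j) : ℕ) + (code (y j) : ℕ)
    have h3 := Nat.mul_le_mul_left N h1
    rw [Nat.mul_add, Nat.mul_one] at h3
    omega
  have hinj : ∀ (x y : Om r a) (j : Fin r), u x j = u y j → x j = y j := by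
    intro x y j h
    by_contra hne
    rcases lt_trichotomy (W (j, x j)) (W (j, y j)) with h1 | h1 | h1
    · exact absurd h (hlt x y j h1).ne
    · have h2 : N * (W (j, x j) : ℕ) + (code (x j) : ℕ) =
        N * (W (j, y j) : ℕ) + (code (y j) : ℕ) := h
      rw [h1] at h2
      exact hne (code.injective (Fin.ext (by omega)))
    · exact absurd h (hlt y x j h1).ne'
  let v : Om r a → Lex (Fin r → ℕ) := fun x => toLex (u x)
  have hv : Function.Injective v := by
    intro x y h
    have h1 : u x = u y := toLex.injective h
    funext j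
    exact hinj x y j (congrFun h1 j)
  refine ⟨rk v, rk_inj v hv, ?_⟩
  intro x y j hj hW
  apply rk_lt
  refine ⟨j, fun i hi => ?_, hlt x y j hW⟩
  show u x i = u y i
  have := hj i hi
  show N * (W (i, x i) : ℕ) + (code (x i) : ℕ) = N * (W (i, y i) : ℕ) + (code (y i) : ℕ)
  rw [this]

end Pool.Agent.W978.PS
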